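import Pool.Agent.Q191.Simul.Main

set_option autoImplicit false

namespace Pool.Agent.Results.MP_b06300_an.SimultaneousBasis

open Q191.Simul

/-- Any two subsets of the same cardinality of a finite abelian group have a simultaneous
exponential Riesz basis. -/
theorem result {G : Type*} [AddCommGroup G] [Finite G] (E₁ E₂ : Finset G)
    (h : E₁.card = E₂.card) :
    ∃ Λ : Finset (AddChar G ℂ), IsRieszBasis Λ E₁ ∧ IsRieszBasis Λ E₂ := by
  classical
  have := Fintype.ofFinite G
  exact simultaneous E₁ E₂ h

end Pool.Agent.Results.MP_b06300_an.SimultaneousBasis
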